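import Pool.Agent.helper34.NTA.Spec

set_option autoImplicit false

/-! MP_4536c8, project NTA, row CNX: the numbers of exits. -/

namespace Pool.Agent.NTA

open Equiv

theorem CNX_uni {X : Type} {A : ArcFamily X} (r r' : A.Ray) (hx : r.x = r'.x) (hi : r.i = r'.i)
    (h : r.i = 0 ∨ r.i + 1 = A.len r.x) : r = r' := by
  have h1 := r.ok
  have h2 := r'.ok
  rw [← hx, ← hi] at h2
  have hb : r.b = r'.b := by
    cases hb1 : r.b <;> cases hb2 : r'.b <;> rw [hb1] at h1 <;> rw [hb2] at h2 <;>
      simp at h1 h2 ⊢ <;> omega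
  exact ArcFamily.Ray.ext hx hi hb

section

variable {H : Type} [Group H] {s : ZMod 10 → H} {sg : H →* ℤˣ}

theorem CNX_A {hG : Grp H s sg} {A : ArcFamily (VV sg)} {pos yp : H → ZMod 10 → ℕ}
    {σ : Perm A.Ray} (hP : PosData hG A pos yp)
    (hσ : ∀ r r' : A.Ray, σ.SameCycle r r' ↔ r.p = r'.p) (e e' : A.Ray) (he : Exit A σ e)
    (he' : Exit A σ e') (hh : hvr e = hvr e') (hc : labr pos e = labr pos e')
    (hX : (hvr e, labr pos e) ∉ XS s pos) : e = e' := by
  have hx : e.x = Sum.inl (hvr e) := exit_x he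
  have hx' : e'.x = Sum.inl (hvr e) := by rw [hh]; exact exit_x he'
  have hi : pos (hvr e) (labr pos e) = e.i := labr_pos hP hx
  have hi' : pos (hvr e) (labr pos e) = e'.i := by
    rw [hh, hc]
    exact labr_pos hP (exit_x he')
  generalize hvr e = h at hx hx' hi hi' hX
  generalize labr pos e = c at hi hi' hX
  by_cases h0 : e.i = 0 ∨ e.i + 1 = A.len e.x
  · exact CNX_uni e e' (by rw [hx, hx']) (by rw [← hi, ← hi']) h0
  · apply σ.injective
    have hp : ∀ f : A.Ray, (σ f).p = f.p := fun f =>
      ((hσ f (σ f)).1 ((Equiv.Perm.sameCycle_apply_right).2 (Equiv.Perm.SameCycle.refl σ f))).symm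
    have q : A.pt (σ e).x (σ e).i = A.pt (Sum.inl h) (pos h c) := by
      have h3 := hp e
      unfold ArcFamily.Ray.p at h3
      rw [h3, hx, hi]
    have q' : A.pt (σ e').x (σ e').i = A.pt (Sum.inl h) (pos h c) := by
      have h3 := hp e'
      unfold ArcFamily.Ray.p at h3
      rw [h3, hx', hi']
    have n : (σ e).x ≠ Sum.inl h := by rw [← hx]; exact he.2
    have n' : (σ e').x ≠ Sum.inl h := by rw [← hx']; exact he'.2
    have hlen : A.len e.x = 10 := by rw [hx]; exact hP.lenH h
    have hlt := hP.lt h c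
    rw [hlen, ← hi] at h0
    by_cases hk : KL c
    · rcases hP.twoK h c hk (σ e).x (σ e).i (ray_lt _) q with h4 | h4
      · exact absurd h4.1 n
      rcases hP.twoK h c hk (σ e').x (σ e').i (ray_lt _) q' with h5 | h5
      · exact absurd h5.1 n'
      refine CNX_uni _ _ (by rw [h4.1, h5.1]) (by rw [h4.2, h5.2]) ?_
      rw [h4.2, h4.1, hP.lenY]
      have := hP.ylt h c hk
      omega
    · rcases hP.twoR h c hk (σ e).x (σ e).i (ray_lt _) q with h4 | h4
      · exact absurd h4.1 n
      rcases hP.twoR h c hk (σ e').x (σ e').i (ray_lt _) q' with h5 | h5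
      · exact absurd h5.1 n'
      refine CNX_uni _ _ (by rw [h4.1, h5.1]) (by rw [h4.2, h5.2]) ?_
      rw [h4.2, h4.1, hP.lenH]
      have h6 := hP.lt (h * s c) c
      by_contra h7
      apply hX
      refine ⟨hk, ?_, ?_, ?_, ?_⟩
      · change 0 < pos h c
        omega
      · change pos h c < 9
        omega
      · change 0 < pos (h * s c) c
        omega
      · change pos (h * s c) c < 9
        omega

theorem CNX_B {hG : Grp H s sg} {A : ArcFamily (VV sg)} {pos yp : H → ZMod 10 → ℕ}
    {σ : Perm A.Ray} (hP : PosData hG A pos yp) (e e' : A.Ray) (he : Exit A σ e)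
    (he' : Exit A σ e') (hh : hvr e = hvr e') (hc : labr pos e = labr pos e') (hb : e.b = e'.b) :
    e = e' := by
  apply ArcFamily.Ray.ext _ _ hb
  · rw [exit_x he, exit_x he', hh]
  · rw [← labr_pos hP (exit_x he), ← labr_pos hP (exit_x he'), hh, hc]

end

theorem CNX_cK (H : Type) [Finite H] : Nat.card (H × {c : ZMod 10 // KL c}) = 5 * Nat.card H := by
  rw [Nat.card_prod]
  have h : Nat.card {c : ZMod 10 // KL c} = 5 := by
    rw [Nat.card_eq_fintype_card]
    decide
  rw [h]
  ring

theorem CNX_cR (H : Type) [Finite H] : Nat.card (H × {c : ZMod 10 // ¬ KL c}) = 5 * Nat.card H := by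
  rw [Nat.card_prod]
  have h : Nat.card {c : ZMod 10 // ¬ KL c} = 5 := by
    rw [Nat.card_eq_fintype_card]
    decide
  rw [h]
  ring

theorem CNX : CNX_stmt := by
  intro H _ _ s sg hG A pos yp σ hP hσ
  classical
  constructor
  · rw [← CNX_cK H]
    refine Nat.card_le_card_of_injective
      (fun e : {e : {e : A.Ray // Exit A σ e} // KL (labr pos e.1)} =>
        ((hvr e.1.1, ⟨labr pos e.1.1, e.2⟩) : H × {c : ZMod 10 // KL c})) ?_
    rintro ⟨⟨e, he⟩, hk⟩ ⟨⟨e', he'⟩, hk'⟩ h
    have h1 : hvr e = hvr e' := (Prod.mk.inj h).1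
    have h2 : labr pos e = labr pos e' := congrArg Subtype.val (Prod.mk.inj h).2
    have h3 : e = e' := CNX_A hP hσ e e' he he' h1 h2 fun hX => hX.1 hk
    subst h3
    rfl
  · rw [← CNX_cR H, ← Nat.card_coe_set_eq, ← Nat.card_sum]
    refine Nat.card_le_card_of_injective
      (fun e : {e : {e : A.Ray // Exit A σ e} // ¬ KL (labr pos e.1)} =>
        (if hX : (hvr e.1.1, labr pos e.1.1) ∈ XS s pos ∧ e.1.1.b = true then
          Sum.inr ⟨(hvr e.1.1, labr pos e.1.1), hX.1⟩
        else Sum.inl (hvr e.1.1, ⟨labr pos e.1.1, e.2⟩) :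
          (H × {c : ZMod 10 // ¬ KL c}) ⊕ (XS s pos))) ?_
    rintro ⟨⟨e, he⟩, hk⟩ ⟨⟨e', he'⟩, hk'⟩ h
    have key : e = e' := by
      by_cases hX : (hvr e, labr pos e) ∈ XS s pos ∧ e.b = true
      · by_cases hX' : (hvr e', labr pos e') ∈ XS s pos ∧ e'.b = true
        · simp only [dif_pos hX, dif_pos hX'] at h
          have h1 := congrArg Subtype.val (Sum.inr.inj h)
          exact CNX_B hP e e' he he' (Prod.mk.inj h1).1 (Prod.mk.inj h1).2 (by rw [hX.2, hX'.2])
        · simp only [dif_pos hX, dif_neg hX'] at h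
          exact absurd h Sum.inr_ne_inl
      · by_cases hX' : (hvr e', labr pos e') ∈ XS s pos ∧ e'.b = true
        · simp only [dif_neg hX, dif_pos hX'] at h
          exact absurd h Sum.inl_ne_inr
        · simp only [dif_neg hX, dif_neg hX'] at h
          have h0 := Sum.inl.inj h
          have h1 : hvr e = hvr e' := (Prod.mk.inj h0).1
          have h2 : labr pos e = labr pos e' := congrArg Subtype.val (Prod.mk.inj h0).2
          by_cases hY : (hvr e, labr pos e) ∈ XS s pos
          · have hb : e.b = false := by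
              cases hb : e.b
              · rfl
              · exact absurd ⟨hY, hb⟩ hX
            have hY' : (hvr e', labr pos e') ∈ XS s pos := by rw [← h1, ← h2]; exact hY
            have hb' : e'.b = false := by
              cases hb : e'.b
              · rfl
              · exact absurd ⟨hY', hb⟩ hX'
            exact CNX_B hP e e' he he' h1 h2 (by rw [hb, hb'])
          · exact CNX_A hP hσ e e' he he' h1 h2 hY
    subst key
    rfl

end Pool.Agent.NTA
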